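import Pool.Agent.W637.BlumbergLOTS

/-!
In ZFC there is a compact linearly ordered space `X` (with the order topology) and a function
`f : X → ℝ` which is not continuous on any dense subset of `X`.
-/

namespace Pool.Agent.Results.MP_184855_gt.CompactLOTS

/-- There is a compact linearly ordered topological space without the Blumberg property. -/
theorem result : ∃ (X : Type) (_ : LinearOrder X) (_ : TopologicalSpace X),
    OrderTopology X ∧ CompactSpace X ∧
      ∃ f : X → ℝ, ∀ D : Set X, Dense D → ¬ Continuous (fun x : D => f x) :=
  Pool.Agent.W637.Blum.compactLOTS

end Pool.Agent.Results.MP_184855_gt.CompactLOTS
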